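import Pool.Agent.N39.RW.ChenB
import Pool.Agent.N39.RW.Pow

/-!
# Chen primes between consecutive cubes and in all windows around most points of these intervals

A Chen prime is a prime `p` such that `p + 2` is a prime or a product of two primes. We show that a positive
proportion of the intervals `(n³, (n + 1)³)` contains at least `c n² / log² n` Chen primes `p` with
`p + 2 < (n + 1)³` (the order of magnitude which is conjectured for the twin primes). More precisely, a
positive proportion of the integers `t` of such an interval are regular: ALL windows `(u, v]` around `t` of a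
length between `K log² t` and `t` contain the right number of Chen primes `p`, for which moreover all the prime
factors of `p + 2` are larger than a fixed power of `t`, up to constant factors. The same for all other
exponents `s ≥ 2` instead of `3`.
-/

set_option autoImplicit false

open Finset Filter

namespace Pool.Agent.Results.MP_d610d0_nt.ChenPrimesBetweenCubes

/-- the number of the primes `p` with `u < p ≤ v` for which `p + 2` is a product of at most two primes, where `p` and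
the prime factors of `p + 2` are larger than `z` -/
noncomputable def chen (z : ℝ) (u v : ℕ) : ℕ :=
  Set.ncard {p : ℕ | u < p ∧ p ≤ v ∧ p.Prime ∧ z < (p : ℝ) ∧ (p + 2).primeFactorsList.length ≤ 2 ∧
    ∀ q : ℕ, q.Prime → q ∣ p + 2 → z < (q : ℝ)}

/-- `t` is regular: all windows around `t` of length between `K log² t` and `t` contain the right number of such
primes, with `z = t ^ (1 / r)` -/
def Regular (r : ℕ) (c₁ c₂ K : ℝ) (t : ℕ) : Prop :=
  ∀ u v : ℕ, u ≤ t → t ≤ v → K * Real.log t ^ 2 ≤ (v : ℝ) - u → (v : ℝ) - u ≤ t →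
    c₁ * ((v : ℝ) - u) / Real.log t ^ 2 ≤ (chen ((t : ℝ) ^ (1 / (r : ℝ))) u v : ℝ) ∧
      (chen ((t : ℝ) ^ (1 / (r : ℝ))) u v : ℝ) ≤ c₂ * ((v : ℝ) - u) / Real.log t ^ 2

/-- the number of the Chen primes `p` with `n ^ s < p < p + 2 < (n + 1) ^ s` -/
noncomputable def T (s n : ℕ) : ℕ :=
  Set.ncard {p : ℕ | p.Prime ∧ (p + 2).primeFactorsList.length ≤ 2 ∧ n ^ s < p ∧ p + 2 < (n + 1) ^ s}

open Pool.Agent.N39.RW

theorem adm (p : ℕ) (hp : p.Prime) : ∃ m : ℕ, ∀ t ∈ ({0, 2} : Finset ℕ), ¬ p ∣ m + t := by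
  rcases Nat.eq_or_lt_of_le hp.two_le with h2 | h2
  · refine ⟨1, ?_⟩
    rw [← h2]
    decide
  · rcases Nat.eq_or_lt_of_le (by omega : 3 ≤ p) with h3 | h3
    · refine ⟨2, ?_⟩
      rw [← h3]
      decide
    · refine ⟨1, ?_⟩
      intro t ht
      rw [mem_insert, mem_singleton] at ht
      rcases ht with rfl | rfl <;> intro h <;> have := Nat.le_of_dvd (by norm_num) h <;> omega

theorem chen_eq (r : ℕ) (hr : 2 ≤ r) (z : ℝ) (u v : ℕ) [DecidablePred (fun p => Ch {0, 2} 2 ∅ 0 r z p)] :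
    chen z u v = ((Ioc u v).filter (fun p => Ch {0, 2} 2 ∅ 0 r z p)).card := by
  unfold chen
  rw [← Set.ncard_coe_finset]
  congr 1
  ext p
  rw [Set.mem_ofPred_eq, mem_coe, mem_filter, mem_Ioc]
  unfold Ch
  constructor
  · rintro ⟨h1, h2, h3, h4, h5, h6⟩
    refine ⟨⟨h1, h2⟩, h3, h5, by simp, ?_⟩
    intro t ht
    rw [mem_insert, mem_singleton] at ht
    rcases ht with rfl | rfl
    · refine ⟨?_, ?_⟩
      · rw [add_zero, Nat.primeFactorsList_prime h3]
        simp
        omega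
      · intro q hq hd
        rw [add_zero] at hd
        rw [(Nat.prime_dvd_prime_iff_eq hq h3).1 hd]
        exact h4
    · exact ⟨h5.trans hr, h6⟩
  · rintro ⟨⟨h1, h2⟩, h3, h5, -, h6⟩
    refine ⟨h1, h2, h3, ?_, h5, (h6 2 (by simp)).2⟩
    exact (h6 0 (by simp)).2 p h3 (by simp)

theorem reg_of (r : ℕ) (hr : 2 ≤ r) (c₁ c₂ K : ℝ) (t : ℕ) (h : RegT {0, 2} 2 ∅ 0 r c₁ c₂ K t) :
    Regular r c₁ c₂ K t := by
  classical
  intro u v hu hv h1 h2
  have h3 := h u v hu hv (by simpa using h1) h2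
  rw [chen_eq r hr]
  simpa using h3

/-- There are `r` and `c₁, c₂, K > 0` such that a positive proportion of all integers is regular, and for every
`s ≥ 2` (for instance `s = 3`) there is `ν > 0` such that for all large `N` at least `ν N` of the integers
`n ∈ [N, 2 N)` have the following properties: at least `ν n ^ (s - 1)` of the integers `t` with
`n ^ s < t < (n + 1) ^ s` are regular, and there are at least `ν n ^ (s - 1) / log² n` primes `p` with
`n ^ s < p < p + 2 < (n + 1) ^ s` such that `p + 2` is a product of at most two primes. -/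
theorem result : ∃ (r : ℕ) (c₁ c₂ K : ℝ), 2 ≤ r ∧ 0 < c₁ ∧ 0 < c₂ ∧ 0 < K ∧
    (∃ μ : ℝ, 0 < μ ∧ ∀ᶠ x : ℕ in atTop, μ * x ≤ (Set.ncard {t : ℕ | t ≤ x ∧ Regular r c₁ c₂ K t} : ℝ)) ∧
    ∀ s : ℕ, 2 ≤ s → ∃ ν : ℝ, 0 < ν ∧ ∀ᶠ N : ℕ in atTop, ν * N ≤
      (Set.ncard {n : ℕ | N ≤ n ∧ n < 2 * N ∧
        ν * (n : ℝ) ^ (s - 1) ≤ (Set.ncard {t : ℕ | n ^ s < t ∧ t < (n + 1) ^ s ∧ Regular r c₁ c₂ K t} : ℝ) ∧
        ν * (n : ℝ) ^ (s - 1) / Real.log n ^ 2 ≤ (T s n : ℝ)} : ℝ) := by
  classical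
  obtain ⟨r, hr, c₁, c₂, K, μ, hc₁, hc₂, hK, hμ, hreg⟩ := regT {0, 2} (by simp) 2 (by simp) (by norm_num) adm
    ∅ (by simp) 0 (by simp)
  have hreg' : ∀ᶠ X : ℕ in atTop, μ * X ≤ (((Ioc X (2 * X)).filter (fun t => Regular r c₁ c₂ K t)).card : ℝ) := by
    filter_upwards [hreg] with X hX
    refine hX.trans ?_
    rw [Nat.cast_le]
    apply card_le_card
    intro t ht
    rw [mem_filter] at ht ⊢
    exact ⟨ht.1, reg_of r hr c₁ c₂ K t ht.2⟩
  refine ⟨r, c₁, c₂, K, hr, hc₁, hc₂, by linarith, ?_, ?_⟩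
  · refine ⟨μ / 4, by positivity, ?_⟩
    have hhalf : Tendsto (fun x : ℕ => x / 2) atTop atTop := Nat.tendsto_div_const_atTop (by norm_num)
    filter_upwards [hhalf.eventually hreg', eventually_ge_atTop 4] with x hx hx4
    have h1 : (((Ioc (x / 2) (2 * (x / 2))).filter (fun t => Regular r c₁ c₂ K t)).card : ℝ) ≤
        (Set.ncard {t : ℕ | t ≤ x ∧ Regular r c₁ c₂ K t} : ℝ) := by
      rw [← Set.ncard_coe_finset, Nat.cast_le]
      refine Set.ncard_le_ncard ?_ ((Set.finite_Iic x).subset fun t ht => ht.1)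
      intro t ht
      rw [mem_coe, mem_filter, mem_Ioc] at ht
      exact ⟨by omega, ht.2⟩
    refine le_trans ?_ (hx.trans h1)
    have h3 : (x : ℝ) ≤ 4 * ((x / 2 : ℕ) : ℝ) := by
      have : x ≤ 4 * (x / 2) := by omega
      exact_mod_cast this
    calc μ / 4 * x ≤ μ / 4 * (4 * ((x / 2 : ℕ) : ℝ)) := by gcongr
      _ = _ := by ring
  · intro s hs
    obtain ⟨ν, hν, hpow⟩ := powers s hs μ hμ
    obtain ⟨ν', hν', hwin⟩ := pow_window s hs 2 K c₁ 2 (by linarith) hc₁ (by norm_num)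
    refine ⟨min ν ν', lt_min hν hν', ?_⟩
    have hNs : Tendsto (fun N : ℕ => N ^ s) atTop atTop := tendsto_pow_atTop (by omega)
    obtain ⟨m₀, hwin⟩ := eventually_atTop.1 hwin
    filter_upwards [hpow, hNs.eventually hreg', eventually_ge_atTop (m₀ + 2)] with N h1 h2 hN
    have h3 := h1 ((Ioc (N ^ s) (2 * N ^ s)).filter (fun t => Regular r c₁ c₂ K t)) (by
        intro t ht
        rw [mem_filter, mem_Ioc] at ht
        rw [mem_Ioc]
        exact ⟨ht.1.1, by omega⟩) (by
        refine le_trans ?_ h2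
        push_cast
        exact le_rfl)
    have hN0 : (0 : ℝ) < N := by exact_mod_cast (by omega : 0 < N)
    refine (mul_le_mul_of_nonneg_right (min_le_left ν ν') hN0.le).trans (h3.trans ?_)
    rw [← Set.ncard_coe_finset, Nat.cast_le]
    refine Set.ncard_le_ncard ?_ ((Set.finite_Iio (2 * N)).subset fun n hn => hn.2.1)
    intro m hm
    rw [mem_coe, mem_filter, mem_Ico] at hm
    obtain ⟨⟨hm1, hm2⟩, hm3⟩ := hm
    have hm0 : (0 : ℝ) < m := by exact_mod_cast (by omega : 0 < m)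
    have hsub : ((((Ioc (N ^ s) (2 * N ^ s)).filter (fun t => Regular r c₁ c₂ K t)).filter
        (fun t : ℕ => m ^ s < t ∧ t < (m + 1) ^ s)).card : ℝ) ≤
        (Set.ncard {t : ℕ | m ^ s < t ∧ t < (m + 1) ^ s ∧ Regular r c₁ c₂ K t} : ℝ) := by
      rw [← Set.ncard_coe_finset, Nat.cast_le]
      refine Set.ncard_le_ncard ?_ ((Set.finite_Iio ((m + 1) ^ s)).subset fun t ht => ht.2.1)
      intro t ht
      rw [mem_coe, mem_filter, mem_filter] at ht
      exact ⟨ht.2.1, ht.2.2, ht.1.2⟩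
    refine ⟨hm1, hm2, (mul_le_mul_of_nonneg_right (min_le_left ν ν') (by positivity)).trans (hm3.trans hsub), ?_⟩
    -- one regular point
    have hpos : 0 < (((Ioc (N ^ s) (2 * N ^ s)).filter (fun t => Regular r c₁ c₂ K t)).filter
        (fun t : ℕ => m ^ s < t ∧ t < (m + 1) ^ s)).card := by
      have : (0 : ℝ) < ν * (m : ℝ) ^ (s - 1) := by positivity
      exact_mod_cast lt_of_lt_of_le this hm3
    obtain ⟨t, ht⟩ := card_pos.1 hpos
    rw [mem_filter, mem_filter] at ht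
    obtain ⟨⟨-, htr⟩, ht1, ht2⟩ := ht
    obtain ⟨w1, w2, w3⟩ := hwin m (by omega) t ht1 ht2
    have htv : t ≤ (m + 1) ^ s - 1 := by omega
    have w4 := (htr (m ^ s) ((m + 1) ^ s - 1) ht1.le htv w1 w2).1
    have w5 : chen ((t : ℝ) ^ (1 / (r : ℝ))) (m ^ s) ((m + 1) ^ s - 1) ≤ T s m + 2 := by
      unfold chen T
      have e1 : {p : ℕ | m ^ s < p ∧ p ≤ (m + 1) ^ s - 1 ∧ p.Prime ∧ (t : ℝ) ^ (1 / (r : ℝ)) < (p : ℝ) ∧
          (p + 2).primeFactorsList.length ≤ 2 ∧ ∀ q : ℕ, q.Prime → q ∣ p + 2 → (t : ℝ) ^ (1 / (r : ℝ)) < (q : ℝ)} ⊆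
          {p : ℕ | p.Prime ∧ (p + 2).primeFactorsList.length ≤ 2 ∧ m ^ s < p ∧ p + 2 < (m + 1) ^ s} ∪
            ({(m + 1) ^ s - 1, (m + 1) ^ s - 2} : Finset ℕ) := by
        rintro p ⟨a1, a2, a3, -, a5, -⟩
        by_cases hlt : p + 2 < (m + 1) ^ s
        · left
          exact ⟨a3, a5, a1, hlt⟩
        · right
          rw [mem_coe, mem_insert, mem_singleton]
          omega
      have hfin : ({p : ℕ | p.Prime ∧ (p + 2).primeFactorsList.length ≤ 2 ∧ m ^ s < p ∧ p + 2 < (m + 1) ^ s}).Finite :=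
        (Set.finite_Iio ((m + 1) ^ s)).subset fun p hp => by
          have := hp.2.2.2
          show p < (m + 1) ^ s
          omega
      refine (Set.ncard_le_ncard e1 (hfin.union (Finset.finite_toSet _))).trans
        ((Set.ncard_union_le _ _).trans (Nat.add_le_add_left ?_ _))
      rw [Set.ncard_coe_finset]
      exact card_le_two
    have w6 : (chen ((t : ℝ) ^ (1 / (r : ℝ))) (m ^ s) ((m + 1) ^ s - 1) : ℝ) ≤ T s m + 2 := by exact_mod_cast w5
    have hlm : 0 ≤ Real.log (m : ℝ) := Real.log_natCast_nonneg m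
    calc min ν ν' * (m : ℝ) ^ (s - 1) / Real.log m ^ 2 ≤ ν' * (m : ℝ) ^ (s - 1) / Real.log m ^ 2 := by
          gcongr
          exact min_le_right _ _
      _ ≤ (T s m : ℝ) := by linarith

end Pool.Agent.Results.MP_d610d0_nt.ChenPrimesBetweenCubes
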