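import Mathlib
import Pool.Agent.X34.E.E4
import Pool.Agent.X34.E.E8
import Pool.Agent.N790.WG.Div

/-!
# Pairs of consecutive primes with one gap at most 212: every scale above `(log X) ^ 45`, every division into intervals

The conjecture asks for many pairs of primes with difference 2 between any two consecutive cubes. Here the
difference 2 is replaced by one even number `h ≤ 212`, the same for all the intervals; the pairs are pairs of
CONSECUTIVE primes with difference exactly `h`, and all intervals are replaced by a positive proportion of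
them (measured by their length).

(1) For all large `X` there is a set `P` of primes followed by the gap `h` such that at least
`c X / (log X) ^ 45` elements `p` of `P` between `X` and `3 X` are regular points of `P`: EVERY interval `(p - s, p + t]`
with `s, t ≤ X / 2` of length at least `(log X) ^ 45 / c` contains between `c (s + t) / (log X) ^ 45` and
`(s + t) / (c (log X) ^ 45)` elements of `P`. So around these primes the pairs with gap `h` have the right
order of density at all scales at once, on both sides, down to the scale `(log X) ^ 45 / c` where only boundedly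
many of them are left.

(2) For EVERY division of `(X, 3 X]` (or of a slightly larger interval) into intervals of arbitrary lengths between
`(log X) ^ 45 / c` and `X / 2`, the intervals `I` with at least `c |I| / (log X) ^ 45` pairs of consecutive primes
`p`, `p + h` in `I` have total length at least `c X`. The gap `h` depends on `X` only, not on the division: the same `h`
serves for the intervals between consecutive cubes, between consecutive hundredth powers, and for divisions into
intervals of very different lengths.

The same for primes in a residue class modulo `q`, with `h = k lcm (2, q)`, `1 ≤ k ≤ 106`.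

Proof (`Pool.Agent.N790.WG`): helper34's engine `Pool.Agent.X34.E` (starting files) gives a set of
`≫ X / (log X) ^ 45` integers at which 45 linear forms have no prime factor below `X ^ κ` and two of them are
consecutive primes; helper977's theorem `Pool.Agent.TH977.PW.final_lin` (starting files) says that in every set of
integers with 45 rough values all but few elements are regular. The starting files combine neither of them with the
other: for pairs of consecutive primes they have only a positive proportion of the intervals between consecutive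
`s`-th powers (`powers_pos`).
-/

set_option autoImplicit false

open Finset Filter

namespace Pool.Agent.Results.MP_d610d0_nt.OneGapAtEveryScale

/-- `p ≡ a (mod q)` is a prime and the next prime is `p + h` -/
def Starts (q a h p : ℕ) : Prop :=
  p ≡ a [MOD q] ∧ p.Prime ∧ (p + h).Prime ∧ ∀ m, p < m → m < p + h → ¬ m.Prime

/-- the number of the pairs of consecutive primes `p`, `p + h` in `(u, v]` with `p ≡ a (mod q)` -/
noncomputable def pairs (q a h u v : ℕ) : ℕ :=
  Set.ncard {p : ℕ | u < p ∧ p + h ≤ v ∧ Starts q a h p}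

/-- the number of the elements of `P` in `(u, v]` -/
noncomputable def count (P : Set ℕ) (u v : ℕ) : ℕ := Set.ncard {n : ℕ | n ∈ P ∧ u < n ∧ n ≤ v}

/-- every interval `(p - s, p + t]` with `s, t ≤ X / 2` of length at least `(log X) ^ 45 / c` contains between
`c (s + t) / (log X) ^ 45` and `(s + t) / (c (log X) ^ 45)` elements of `P` -/
def Regular (P : Set ℕ) (c : ℝ) (X p : ℕ) : Prop :=
  ∀ s t : ℕ, 2 * s ≤ X → 2 * t ≤ X → Real.log X ^ 45 ≤ c * (s + t) →
    c * (s + t) / Real.log X ^ 45 ≤ count P (p - s) (p + t) ∧
      (count P (p - s) (p + t) : ℝ) ≤ (s + t) / (c * Real.log X ^ 45)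

/-- `u 0, ..., u R` divide an interval which contains `(X, 3 X]` and is contained in `(0, 4 X]` into
intervals of lengths between `(log X) ^ 45 / c` and `X / 2` -/
def Divides (c : ℝ) (X R : ℕ) (u : ℕ → ℕ) : Prop :=
  u 0 ≤ X ∧ 3 * X ≤ u R ∧ u R ≤ 4 * X ∧
    ∀ i < R, Real.log X ^ 45 ≤ c * ((u (i + 1) : ℝ) - u i) ∧ 2 * u (i + 1) ≤ 2 * u i + X

theorem N_eq (P : Set ℕ) (u v : ℕ) : Pool.Agent.TH977.PW.N P u v = count P u v := by
  classical
  unfold Pool.Agent.TH977.PW.N count
  rw [← Set.ncard_coe_finset]
  congr 1
  ext n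
  simp only [coe_filter, mem_Ioc, Set.mem_ofPred_eq]
  tauto

open Classical in
/-- There is `c > 0` such that for all large `X` there are `1 ≤ k ≤ 106` and, with `h = k lcm (2, q)`, a set `P`
of primes `p ≡ a (mod q)` whose next prime is `p + h` such that (1) at least `c X / (log X) ^ 45` elements of
`P` between `X` and `3 X` are regular points of `P`; (2) for every division of `(X, 3 X]` into intervals of lengths
between `(log X) ^ 45 / c` and `X / 2` the total length of the intervals `I` with at least
`c |I| / (log X) ^ 45` pairs of consecutive primes `p`, `p + h`, `p ≡ a (mod q)`, is at least `c X`. -/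
theorem result (q a : ℕ) (hq : 1 ≤ q) (ha : a.Coprime q) :
    ∃ c : ℝ, 0 < c ∧ ∀ᶠ X : ℕ in atTop, ∃ k : ℕ, 1 ≤ k ∧ k ≤ 106 ∧
      (∃ P : Set ℕ, (∀ p ∈ P, Starts q a (k * Nat.lcm 2 q) p) ∧
        c * X / Real.log X ^ 45 ≤ (Set.ncard {p : ℕ | X < p ∧ p < 3 * X ∧ p ∈ P ∧ Regular P c X p} : ℝ)) ∧
      ∀ (R : ℕ) (u : ℕ → ℕ), Divides c X R u →
        c * X ≤ ∑ i ∈ (range R).filter (fun i => c * ((u (i + 1) : ℝ) - u i) / Real.log X ^ 45 ≤
          (pairs q a (k * Nat.lcm 2 q) (u i) (u (i + 1)) : ℝ)), ((u (i + 1) : ℝ) - u i) := by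
  classical
  obtain ⟨a', ha1, ha2⟩ := Pool.Agent.X34.E.lift_class q a hq ha
  have hM0 : 0 < Nat.lcm 2 q := Nat.lcm_pos (by norm_num) hq
  have hM2 : 2 ∣ Nat.lcm 2 q := Nat.dvd_lcm_left 2 q
  have hMq : q ∣ Nat.lcm 2 q := Nat.dvd_lcm_right 2 q
  have hcls : ∀ p, p ≡ a' [MOD Nat.lcm 2 q] → p ≡ a [MOD q] := fun p hp => (hp.of_dvd hMq).trans ha1
  have hadm : ∀ p : ℕ, p.Prime → ¬ p ∣ Nat.lcm 2 q → ∃ r : ℕ, ∀ g ∈ Pool.Agent.X34.E.G45, ¬ p ∣ r + g :=
    fun p hp hpM => Pool.Agent.X34.E.G45_adm p hp (fun h2 => hpM (h2 ▸ hM2))
  obtain ⟨c, hc, h⟩ := Pool.Agent.N790.WG.main Pool.Agent.X34.E.dhl45R (Nat.lcm 2 q) a' hM0 ha2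
    Pool.Agent.X34.E.G45 Pool.Agent.X34.E.G45_card hadm
  refine ⟨c, hc, ?_⟩
  filter_upwards [h, eventually_ge_atTop 1] with X hX hX1
  obtain ⟨g, hg, g', hg', hgg, P, hP, hX, hdiv⟩ := hX
  have h106 := Pool.Agent.X34.E.G45_le g' hg'
  refine ⟨g' - g, by omega, by omega, ⟨P, fun p hp => ?_, hX.trans (le_of_eq ?_)⟩, fun R u hu => ?_⟩
  · have h1 := hP p hp
    exact ⟨hcls p h1.1, h1.2⟩
  · congr 2
    ext p
    have e : Pool.Agent.N790.WG.Reg P c X p ↔ Regular P c X p := by
      unfold Pool.Agent.N790.WG.Reg Regular
      simp only [N_eq]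
    show X < p ∧ p < 3 * X ∧ p ∈ P ∧ Pool.Agent.N790.WG.Reg P c X p ↔
      X < p ∧ p < 3 * X ∧ p ∈ P ∧ Regular P c X p
    rw [e]
  · obtain ⟨h1, h2, h3, h4⟩ := hu
    refine (hdiv R u h1 h2 h3 h4).trans ?_
    apply sum_le_sum_of_subset_of_nonneg
    · intro i hi
      rw [mem_filter] at hi ⊢
      refine ⟨hi.1, hi.2.trans ?_⟩
      unfold pairs
      rw [Nat.cast_le]
      refine Set.ncard_le_ncard (fun p hp => ⟨hp.1, hp.2.1, hcls p hp.2.2.1, hp.2.2.2⟩)
        ((Set.finite_Iic (u (i + 1))).subset fun p hp => ?_)
      have := hp.2.1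
      show p ≤ u (i + 1)
      omega
    · intro i hi _
      have h5 := (h4 i (mem_range.1 (mem_filter.1 hi).1)).1
      have h6 : 0 ≤ Real.log X ^ 45 := by
        have : 0 ≤ Real.log X := Real.log_nonneg (by exact_mod_cast hX1)
        positivity
      by_contra hneg
      push Not at hneg
      have := mul_neg_of_pos_of_neg hc hneg
      linarith

end Pool.Agent.Results.MP_d610d0_nt.OneGapAtEveryScale
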