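import Pool.Agent.N694.PW.Box

/-!
# Prime pairs and tuples between consecutive cubes (and other powers)

For `n ≥ 1` let `T(n)` be the number of the prime pairs `(p, p + 2)` between `n³` and `(n + 1)³`. The second
question is whether for every `k` all large `n` satisfy `T(n) ≥ k`.

Let `a ≥ 2`, `k ≥ 1` and `ε > 0`. There is `M` such that in EVERY large box of `(N ℤ)^k`, `N` a multiple of `M`,
with a corner in `(M ℤ)^k`, at least the proportion `(k + 1) (5/18)^k - ε` of the vectors `d = (d_1, ..., d_k)`
are such that for a positive (upper) proportion of the `n` the number `T_d(n)` of the tuples of primes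
`(p, p + d_1, ..., p + d_k)` between `n^a` and `(n + 1)^a` is at least `n^(a-1) / (log n)^C`, for some `C`; in
particular `T_d(n)` exceeds every given number for a positive proportion of the `n`. For `a = 3` and `k = 1`:
for at least `5/9 - ε` of the `h` in every long segment of a progression of multiples of `M`, for a positive
proportion of the `n` there are at least `n² / (log n)^C` prime pairs `(p, p + h)` between `n³` and `(n + 1)³`.

Proof: the coloured Maynard-Tao theorem in the form `Pool.Agent.Y827.RO.lamR0` gives `≫ N / (log N)^r` values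
`m ≤ N` at which `r - 1` forms have no prime factor `≤ N^δ` and enough of them are prime. An upper bound sieve in
intervals (`Pool.Agent.N694.PW.upI`) shows that an interval between consecutive powers contains at most the
expected number of such `m`; so they are spread over a positive proportion of the intervals. The rest is the
theorem on almost cliques (`Pool.Agent.N646.AC.wclique`) and the theorem on boxes
(`Pool.Agent.N646.BX.box_main`) of helper646 and co-authors.
-/

set_option autoImplicit false

namespace Pool.Agent.Results.MP_d610d0_nt.TuplesBetweenPowers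

open Finset Filter

/-- the number of the `p` such that all the numbers `p + d_0, ..., p + d_k` are primes strictly between `n^a`
and `(n + 1)^a` -/
noncomputable def tuples (a n : ℕ) {k : ℕ} (d : Fin (k + 1) → ℤ) : ℕ :=
  {p : ℕ | ∀ i, ((n ^ a : ℕ) : ℤ) < (p : ℤ) + d i ∧ (p : ℤ) + d i < (((n + 1) ^ a : ℕ) : ℤ) ∧
    ((p : ℤ) + d i).toNat.Prime}.ncard

/-- There are `c > 0` and `C` such that for arbitrarily large `X` at least `c X` of the `n < X` are such that
there are at least `n^(a-1) / (log n)^C` tuples `(p, p + d_1, ..., p + d_k)` of primes between `n^a` and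
`(n + 1)^a`. -/
def Good (a : ℕ) {k : ℕ} (d : Fin k → ℤ) : Prop := ∃ (c : ℝ) (C : ℕ), 0 < c ∧ ∃ᶠ X : ℕ in atTop,
  c * X ≤ ({n : ℕ | n < X ∧ 3 ≤ n ∧ (n : ℝ) ^ (a - 1) / (Real.log n) ^ C ≤
    (tuples a n (Fin.cons 0 d : Fin (k + 1) → ℤ) : ℝ)}.ncard : ℝ)

/-- **Prime tuples between consecutive powers, for a positive proportion of the intervals and for the shifts
in boxes.** -/
theorem result (k : ℕ) (hk : 1 ≤ k) (ε : ℝ) (hε : 0 < ε) (a : ℕ) (ha : 2 ≤ a) : ∃ M : ℕ, 1 ≤ M ∧
    ∀ N : ℕ, 1 ≤ N → M ∣ N → ∃ L : ℕ, ∀ T : ℕ, L ≤ T → ∀ c : Fin k → ℤ, (∀ j, (M : ℤ) ∣ c j) →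
      ((k + 1) * (5 / 18 : ℝ) ^ k - ε) * (T : ℝ) ^ k ≤
        ({t : Fin k → ℕ | (∀ j, t j < T) ∧ Good a (fun j => c j + N * t j)}.ncard : ℝ) := by
  classical
  obtain ⟨M, hM, h⟩ := Pool.Agent.N694.PW.main k hk ε hε a ha
  refine ⟨M, hM, fun N hN hMN => ?_⟩
  obtain ⟨L, h1⟩ := h N hN hMN
  refine ⟨L, fun T hT c hc => (h1 T hT c hc).trans ?_⟩
  unfold Pool.Agent.N646.BX.cnt
  rw [← Set.ncard_coe_finset, Nat.cast_le]
  refine Set.ncard_le_ncard_of_injOn (fun t : Fin k → ℤ => fun j => (t j).toNat) ?_ ?_ ?_
  · intro t ht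
    rw [mem_coe, mem_filter, Fintype.mem_piFinset] at ht
    obtain ⟨ht1, ht2⟩ := ht
    have ht3 : ∀ j, (((t j).toNat : ℕ) : ℤ) = t j := fun j => Int.toNat_of_nonneg (mem_Ico.1 (ht1 j)).1
    refine ⟨fun j => ?_, ?_⟩
    · have h2 := (mem_Ico.1 (ht1 j)).2
      have h3 := ht3 j
      show (t j).toNat < T
      omega
    · have h4 : (fun j => c j + (N : ℤ) * (((t j).toNat : ℕ) : ℤ)) = fun j => c j + (N : ℤ) * t j := by
        funext j
        rw [ht3 j]
      show Good a (fun j => c j + (N : ℤ) * (((t j).toNat : ℕ) : ℤ))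
      rw [h4]
      exact ht2
  · intro t ht t' ht' htt
    rw [mem_coe, mem_filter, Fintype.mem_piFinset] at ht ht'
    funext j
    have h2 := (mem_Ico.1 (ht.1 j)).1
    have h3 := (mem_Ico.1 (ht'.1 j)).1
    have h4 : (t j).toNat = (t' j).toNat := congrFun htt j
    omega
  · apply (Fintype.piFinset (fun _ : Fin k => range T)).finite_toSet.subset
    intro t ht
    rw [mem_coe, Fintype.mem_piFinset]
    exact fun j => mem_range.2 (ht.1 j)

end Pool.Agent.Results.MP_d610d0_nt.TuplesBetweenPowers
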