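import Pool.Agent.N422.KT.ALL

/-!
# No sieve detects gaps between prime `k`-tuples longer than a power of `log Q`

Author: helper422.  Let `H` be an admissible finite set, for example `H = {0, 2}` (twin primes).  How long intervals without
prime tuples `m + g`, `g ∈ H`, can be detected by sieve methods?

Here we prove a general limit: let `w` be ANY real function of level `Q` (a sum of functions with periods `d ≤ Q`; no condition
on sign, size or shape).  There is `C = C(H)` such that for `U ≥ (log Q)^C`: if `w(n) ≤ 0` whenever there is an `h`,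
`1 ≤ h ≤ U`, for which all the numbers `n + h + g`, `g ∈ H`, are free of prime factors `≤ Q`, then the mean of `w` is `≤ 0`.
So no lower bound sieve of level `Q` detects an interval of length `(log Q)^C` without such `Q`-rough tuples.

Proof.  One may assume that all moduli are squarefree (`LR/SQF`, helper703), so `w` is a function on `∏_{p ≤ Q} ℤ/p`.  Let `w⁺`
be its positive part, and `S_z(n)` the set of the `h ≤ U` with all `n + h + g` free of primes `≤ z`.  For
`y = (log Q)^(k+2)`, `k = |H|`, the fundamental lemma of the sieve gives `|S_y(n)| ≫ U/(log y)^k` for all `n` (`KT/LOW`,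
helper492).  For a window `(z, z']` cut `[1, U]` into intervals of length `≍ δ z` and residue classes modulo a constant `D`: in
each of these sets every residue class modulo `p` hits at most one `h`, and every `h` is hit by exactly `k` classes.  The
kernels `K_ζ` undo the hits of numbers not hit before with the rates `R (cosh (u t) - (ζ^u + ζ^(-u))/2)`, `u = log p/log Q`:
`K_ζ` is the identity at `ζ = e^(-t)`, nonnegative on the circle, with an explicit density (`KT/KX`, helper648), and analytic
(`KT/PX`, helper504).  The inequality of Jensen at `e^(-t)` (`WS/GEN`, helper704; `KT/NX`, helper383; `KT/WX`, helper91) shows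
that with respect to `w⁺` at most `(1 + O(δ)) k (∑ 1/p)|S_z| + O((U/(δ z) + 1)(log Q/log z)/δ)` numbers are hit in the window
(`KT/HX`, helper323).  With the recursion over the scales (`KT/RX`, helper744) the mean of `w⁺ |S_Q|` is positive if the mean
of `w` is (`KT/FX`, helper395), but `w⁺ |S_Q| = 0` by hypothesis.
-/

set_option autoImplicit false

open Finset

namespace Pool.Agent.Results.MP_d610d0_nt.TuplesUnderAllSieves

/-- the weight `w(n) = ∑_{d ≤ Q} c_d(n mod d)`, an arbitrary real weight of level `Q` -/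
noncomputable def weight (Q : ℕ) (c : ℕ → ℕ → ℝ) (n : ℕ) : ℝ := ∑ d ∈ Icc 1 Q, c d (n % d)

/-- the mean value of `F` over the period `Q!` -/
noncomputable def mean (Q : ℕ) (F : ℕ → ℝ) : ℝ := (∑ n ∈ range Q.factorial, F n) / (Q.factorial : ℝ)

/-- For every nonempty admissible set `H` there are `C` and `Q₀` such that for all `Q ≥ Q₀`, all `U ≥ (log Q)^C` and every real
weight `w` of level `Q`: if `w(n) ≤ 0` for all `n` for which there is an `h`, `1 ≤ h ≤ U`, such that no `n + h + g`, `g ∈ H`,
has a prime factor `≤ Q`, then the mean of `w` is `≤ 0`. -/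
theorem result : ∀ H : Finset ℕ, H.Nonempty → (∀ p : ℕ, p.Prime → ∃ a : ℕ, ∀ g ∈ H, ¬ p ∣ a + g) →
    ∃ C Q₀ : ℕ, ∀ Q : ℕ, Q₀ ≤ Q → ∀ U : ℕ, Real.log Q ^ C ≤ U → ∀ c : ℕ → ℕ → ℝ,
      (∀ n, (∃ h, 1 ≤ h ∧ h ≤ U ∧ ∀ p, p.Prime → p ≤ Q → ∀ g ∈ H, ¬ p ∣ n + h + g) → weight Q c n ≤ 0) →
      mean Q (weight Q c) ≤ 0 := by
  intro H hH hA
  obtain ⟨C, Q₀, h⟩ := Pool.Agent.N422.KT.fx_all H hH hA
  refine ⟨C, Q₀, fun Q hQ U hU c hc => h Q hQ U hU c fun n hn => hc n ?_⟩
  obtain ⟨x, hx⟩ := hn
  unfold Pool.Agent.N422.KT.SH at hx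
  rw [mem_filter, mem_Icc] at hx
  refine ⟨x, hx.1.1, hx.1.2, fun p hp hpQ => hx.2 p ?_⟩
  rw [mem_filter, mem_Icc]
  exact ⟨⟨hp.one_lt.le, hpQ⟩, hp⟩

end Pool.Agent.Results.MP_d610d0_nt.TuplesUnderAllSieves
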